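import Mathlib
import Pool.Agent.Lib.MP_4e7804_co.Lo.GeoDefs

/-! MP_4e7804_co, lower bound with polygons. Definitions. `d = n - 1 ≥ 2`, `D = d - 1`. -/

set_option autoImplicit false

open Finset

namespace Pool.Agent.Lib.MP_4e7804_co

/-- The convex sequence `τ_x = x + D x (x - 1)`, with differences `1 + 2 D x`. -/
def tau (D : ℤ) (x : ℕ) : ℤ := x + D * x * (x - 1)

/-- The vector `ν_j`, orthogonal to all `ω_i`, `i ≠ j`. -/
def nu {d : ℕ} (j : Fin d) : Fin d → ℤ := fun l => if l = j then (d : ℤ) - 3 else -2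

/-- The vertex number `x` of the polygon `P_j`: `e_j + x M_j ν_j - τ_x (1, …, 1)`. -/
def pp {d : ℕ} (M : Fin d → ℤ) (j : Fin d) (x : ℕ) : Fin d → ℤ :=
  fun l => (if l = j then 1 else 0) + x * M j * nu j l - tau ((d : ℤ) - 1) x

/-- The vertices of the polygon `P_j`. -/
def setP {d : ℕ} (M : Fin d → ℤ) (v : ℕ) (j : Fin d) : Finset (Fin d → ℤ) :=
  (range v).image (pp M j)

/-- The point `w` with `∑ w = -1` and `ν_j · w = - q_j` for all `j ≠ i`. -/
def wp {d : ℕ} (i : Fin d) (q : Fin d → ℚ) : Fin d → ℚ :=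
  fun l => if l = i then 1 + eps i q / (d - 1) else -(2 + q l) / (d - 1)

/-- The slopes at the edges number `κ_j`. -/
def qp {d : ℕ} (M : Fin d → ℤ) (κ : Fin d → ℕ) : Fin d → ℚ :=
  fun l => (1 + 2 * (d - 1) * κ l) / M l

/-- The polytopes: `P_0` is the free polytope of `Lo/GeoDefs`, the others are polygons. -/
def confQ {d : ℕ} (M : Fin d → ℤ) (v : Fin (d + 1) → ℕ) : Fin (d + 1) → Set (Fin d → ℝ) :=
  Fin.cons (convexHull ℝ (toReal '' (set0 d (3 * (v 0 : ℤ) + 1) (v 0) : Set (Fin d → ℤ))))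
    fun j => convexHull ℝ (toReal '' (setP M (v j.succ) j : Set (Fin d → ℤ)))

/-- The levels of the sheets with `y_i` constant. -/
noncomputable def levelsP {d : ℕ} (M : Fin d → ℤ) (v : Fin (d + 1) → ℕ) (i : Fin d) :
    Finset ℝ :=
  (Fintype.piFinset fun j : Fin d => if j = i then {0} else range (v j.succ - 1)).image
    fun κ => ((wp i (qp M κ) i : ℚ) : ℝ)

end Pool.Agent.Lib.MP_4e7804_co
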