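import Mathlib
import Pool.Agent.Lib.MP_4e7804_co.Pg.GeoP
import Pool.Agent.Lib.MP_4e7804_co.Lo.Wg

/-! MP_4e7804_co, module Pg/Wp (80 lines): values of the linear form `wp i q`. Everything is a
direct computation; compare Lo/Wg.lean (`dot_pt0`, `dot_single` are there).
`sum_wp`: `1 + ε/(d-1) - ∑_{l ≠ i} (2 + q_l)/(d-1) = 1 + ε/(d-1) - 2 - ε/(d-1) = -1`.
`dot_nu`: `∑ w_l ν_j l = (d-3) w_j - 2 (∑ w - w_j)`. -/

set_option autoImplicit false

open Finset

namespace Pool.Agent.Lib.MP_4e7804_co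

theorem Wp_split {d : ℕ} (i : Fin d) (f : Fin d → ℚ) :
    ∑ l, f l = f i + ∑ l ∈ univ.filter (· ≠ i), f l := by
  have h := Finset.sum_filter_add_sum_filter_not (univ : Finset (Fin d)) (fun l => l = i) f
  rw [← h]
  congr 1
  rw [Finset.filter_eq' univ i]
  simp

theorem Wp_cardne {d : ℕ} (i : Fin d) :
    (((univ.filter (· ≠ i) : Finset (Fin d)).card : ℕ) : ℚ) = (d : ℚ) - 1 := by
  have h := Wp_split i (fun _ => (1 : ℚ))
  simp only [Finset.sum_const, Finset.card_univ, Fintype.card_fin, nsmul_eq_mul, mul_one] at h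
  linarith

theorem Wp_d1 {d : ℕ} (hd : 2 ≤ d) : (1 : ℚ) ≤ (d : ℚ) - 1 := by
  have : (2 : ℚ) ≤ d := by exact_mod_cast hd
  linarith

theorem wp_self {d : ℕ} (i : Fin d) (q : Fin d → ℚ) : wp i q i = 1 + eps i q / (d - 1) := by
  simp [wp]

theorem wp_other {d : ℕ} (i j : Fin d) (hji : j ≠ i) (q : Fin d → ℚ) :
    wp i q j = -(2 + q j) / (d - 1) := by
  simp [wp, hji]

theorem sum_wp {d : ℕ} (hd : 2 ≤ d) (i : Fin d) (q : Fin d → ℚ) : ∑ l, wp i q l = -1 := by
  have h1 := Wp_d1 hd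
  have h0 : (d : ℚ) - 1 ≠ 0 := by linarith
  rw [Wp_split i]
  have e1 : ∑ l ∈ univ.filter (· ≠ i), wp i q l =
      ∑ l ∈ univ.filter (· ≠ i), (-(2 + q l) / ((d : ℚ) - 1)) := by
    apply Finset.sum_congr rfl
    intro l hl
    exact wp_other i l (Finset.mem_filter.1 hl).2 q
  have e2 : ∑ l ∈ univ.filter (· ≠ i), (-(2 + q l) / ((d : ℚ) - 1)) =
      -(((d : ℚ) - 1) * 2 + eps i q) / ((d : ℚ) - 1) := by
    rw [← Finset.sum_div, Finset.sum_neg_distrib, Finset.sum_add_distrib, Finset.sum_const,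
      nsmul_eq_mul, Wp_cardne]
    rfl
  rw [e1, e2, wp_self]
  field_simp
  ring

theorem dot_nu {d : ℕ} (w : Fin d → ℚ) (j : Fin d) :
    dot w (nu j) = (d - 1) * w j - 2 * ∑ l, w l := by
  unfold dot
  rw [Wp_split j, Wp_split j w]
  have e1 : ∑ l ∈ univ.filter (· ≠ j), w l * ((nu j l : ℤ) : ℚ) =
      ∑ l ∈ univ.filter (· ≠ j), w l * (-2) := by
    apply Finset.sum_congr rfl
    intro l hl
    have hl' : l ≠ j := (Finset.mem_filter.1 hl).2
    simp [nu, hl']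
  rw [e1, ← Finset.sum_mul]
  simp only [nu, if_true]
  push_cast
  ring

theorem dot_wp_nu {d : ℕ} (hd : 2 ≤ d) (i j : Fin d) (hji : j ≠ i) (q : Fin d → ℚ) :
    dot (wp i q) (nu j) = -q j := by
  have h1 := Wp_d1 hd
  have h0 : (d : ℚ) - 1 ≠ 0 := by linarith
  rw [dot_nu, sum_wp hd, wp_other i j hji]
  field_simp
  ring

theorem dot_wp_nu_self {d : ℕ} (hd : 2 ≤ d) (i : Fin d) (q : Fin d → ℚ) :
    dot (wp i q) (nu i) = d + 1 + eps i q := by
  have h1 := Wp_d1 hd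
  have h0 : (d : ℚ) - 1 ≠ 0 := by linarith
  rw [dot_nu, sum_wp hd, wp_self]
  field_simp
  ring

theorem dot_pp {d : ℕ} (w : Fin d → ℚ) (M : Fin d → ℤ) (j : Fin d) (x : ℕ) :
    dot w (pp M j x) = w j + x * M j * dot w (nu j) - tau ((d : ℤ) - 1) x * ∑ l, w l := by
  unfold dot pp
  have e : ∀ l, w l * (((if l = j then (1 : ℤ) else 0) + x * M j * nu j l
      - tau ((d : ℤ) - 1) x : ℤ) : ℚ) = (if l = j then w l else 0)
      + x * M j * (w l * (nu j l : ℚ)) - (tau ((d : ℤ) - 1) x : ℚ) * w l := by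
    intro l
    by_cases h : l = j
    · simp only [h, if_true]
      push_cast
      ring
    · simp only [h, if_false]
      push_cast
      ring
  rw [Finset.sum_congr rfl (fun l _ => e l)]
  simp only [Finset.sum_add_distrib, Finset.sum_sub_distrib, ← Finset.mul_sum]
  simp

theorem pp_zero {d : ℕ} (M : Fin d → ℤ) (j : Fin d) : pp M j 0 = Pi.single j 1 := by
  funext l
  by_cases h : l = j
  · subst h
    simp [pp, tau]
  · simp [pp, tau, h]

theorem pp_diff {d : ℕ} (M : Fin d → ℤ) (j : Fin d) (x : ℕ) (l : Fin d) :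
    pp M j (x + 1) l - pp M j x l = M j * nu j l - (1 + 2 * ((d : ℤ) - 1) * x) := by
  unfold pp tau
  push_cast
  ring

end Pool.Agent.Lib.MP_4e7804_co
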