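import Mathlib
import Pool.Agent.Lib.MP_4e7804_co.Pg.Wp

/-! MP_4e7804_co, module Pg/MinP (150 lines): minimizers.

PROOFS. `D = d - 1`, `τ_x = x + D x (x-1)`.
`minP_edge`: at `w = wp i (qp M κ)` (`sum_wp`, `dot_wp_nu`, `dot_pp`):
`dot w (pp M j x) = w j - x (1 + 2 D κ_j) + τ_x = w j + D (x² - x - 2 κ_j x)
= w j - D κ_j (κ_j + 1) + D (x - κ_j)(x - κ_j - 1)`; the last product is zero for `x = κ_j, κ_j + 1`
and positive for the other natural numbers.
`minP_unit`: `dot w (pp M i x) = w i + x M_i (d + 1 + ε) + τ_x > w i` for `x ≥ 1` (`τ_x ≥ 0`).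
`minP_free`: by `dot_pt0` the difference of the values at `x` and `0` is
`x (3 v + 1) + x² w_0` (as `∑ w = -1`), and `w_0 ≥ -(2 + q_0)/(d-1) ≥ -3` (or `w_0 > 0` if `i = 0`),
so it is `≥ x (3 v + 1 - 3 x) > 0`.
`setP_vertices`: for the vertex `x` take `w` with `∑ w = -1` and
`ν_j · w = -(1 + 2 D x - D)/M_j`, i.e. `(d - 1) w_j = -2 - (1 + 2 D x - D)/M_j`, and `w_l = -1 - w_j`
for one other index `l ≠ j` (`d ≥ 2`), all others `0`: then
`dot w (pp M j x') = w_j - x' (1 + 2 D x - D) + τ_x' = const + D (x' - x)²`. So the points are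
different (values) and each is the only minimizer of its form.
`minP_neg`: `w = -1`: `∑ w = -d`, `dot w (nu j) = -(d-1) + 2d = d + 1`, so
`dot w (pp M j x) = -1 + x M_j (d+1) + d τ_x > -1` for `x ≥ 1`. -/

set_option autoImplicit false

open Finset

namespace Pool.Agent.Lib.MP_4e7804_co

private theorem minP_d1 {d : ℕ} (hd : 2 ≤ d) : (1 : ℚ) ≤ (d : ℚ) - 1 := by
  have : (2 : ℚ) ≤ d := by exact_mod_cast hd
  linarith

private theorem minP_tau {d : ℕ} (x : ℕ) :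
    ((tau ((d : ℤ) - 1) x : ℤ) : ℚ) = x + ((d : ℚ) - 1) * x * (x - 1) := by
  unfold tau
  push_cast
  ring

private theorem minP_tau_nonneg {d : ℕ} (hd : 2 ≤ d) (x : ℕ) (hx : x ≠ 0) :
    0 < ((tau ((d : ℤ) - 1) x : ℤ) : ℚ) := by
  rw [minP_tau]
  have h1 := minP_d1 hd
  have hx1 : (1 : ℚ) ≤ x := by exact_mod_cast Nat.one_le_iff_ne_zero.2 hx
  have : 0 ≤ ((d : ℚ) - 1) * x * (x - 1) := by
    apply mul_nonneg
    · apply mul_nonneg <;> linarith
    · linarith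
  linarith

private theorem minP_eps {d : ℕ} (i : Fin d) (q : Fin d → ℚ) (hq : ∀ l, 0 ≤ q l) :
    0 ≤ eps i q := Finset.sum_nonneg fun l _ => hq l

/-- the values if the slope is `-c / M_j` -/
private theorem minP_val {d : ℕ} (w : Fin d → ℚ) (M : Fin d → ℤ) (j : Fin d) (c : ℚ)
    (hw : ∑ l, w l = -1) (hc : (M j : ℚ) * dot w (nu j) = -c) (x : ℕ) :
    dot w (pp M j x) = w j - x * c + (x + ((d : ℚ) - 1) * x * (x - 1)) := by
  rw [dot_pp, hw, minP_tau, mul_assoc, hc]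
  ring

private theorem minP_pos (D : ℚ) (hD : 1 ≤ D) (x κ : ℕ) (h1 : x ≠ κ) (h2 : x ≠ κ + 1) :
    0 < D * (((x : ℚ) - κ) * (x - κ - 1)) := by
  apply mul_pos (by linarith)
  rcases lt_trichotomy x κ with h | h | h
  · have : (x : ℚ) < κ := by exact_mod_cast h
    nlinarith
  · exact absurd h h1
  · have h3 : κ + 1 < x := by omega
    have : (κ : ℚ) + 1 < x := by exact_mod_cast h3
    apply mul_pos <;> linarith

theorem minP_edge {d : ℕ} (hd : 2 ≤ d) (M : Fin d → ℤ) (hM : ∀ l, 0 < M l) (v : ℕ) (i : Fin d)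
    (κ : Fin d → ℕ) (j : Fin d) (hji : j ≠ i) (hκ : κ j + 1 < v) :
    pp M j (κ j) ∈ setP M v j ∧ pp M j (κ j + 1) ∈ setP M v j ∧
    dot (wp i (qp M κ)) (pp M j (κ j)) = dot (wp i (qp M κ)) (pp M j (κ j + 1)) ∧
    (∀ a ∈ setP M v j, a ≠ pp M j (κ j) → a ≠ pp M j (κ j + 1) →
      dot (wp i (qp M κ)) (pp M j (κ j)) < dot (wp i (qp M κ)) a) ∧
    dot (wp i (qp M κ)) (pp M j (κ j)) < 0 := by
  have h1 := minP_d1 hd
  have hMj : (0 : ℚ) < M j := by exact_mod_cast hM j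
  have hv := minP_val (wp i (qp M κ)) M j (1 + 2 * (d - 1) * κ j) (sum_wp hd i _) (by
    rw [dot_wp_nu hd i j hji]
    unfold qp
    field_simp)
  have hκ0 : (0 : ℚ) ≤ κ j := by positivity
  refine ⟨?_, ?_, ?_, ?_, ?_⟩
  · exact mem_image_of_mem _ (mem_range.2 (by omega))
  · exact mem_image_of_mem _ (mem_range.2 hκ)
  · rw [hv, hv]
    push_cast
    ring
  · intro a ha ha1 ha2
    obtain ⟨x, -, rfl⟩ := mem_image.1 ha
    have hx1 : x ≠ κ j := fun h => ha1 (by rw [h])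
    have hx2 : x ≠ κ j + 1 := fun h => ha2 (by rw [h])
    have := minP_pos ((d : ℚ) - 1) h1 x (κ j) hx1 hx2
    rw [hv, hv]
    nlinarith
  · rw [hv, wp_other i j hji]
    have hq : 0 ≤ qp M κ j := by
      unfold qp
      apply div_nonneg _ hMj.le
      nlinarith [mul_nonneg (show (0 : ℚ) ≤ d - 1 by linarith) hκ0]
    have h2 : -(2 + qp M κ j) / ((d : ℚ) - 1) < 0 := by
      apply div_neg_of_neg_of_pos <;> linarith
    have h3 : 0 ≤ ((d : ℚ) - 1) * (κ j * (κ j + 1)) := by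
      apply mul_nonneg (by linarith)
      positivity
    nlinarith

theorem minP_unit {d : ℕ} (hd : 2 ≤ d) (M : Fin d → ℤ) (hM : ∀ l, 0 < M l) (v : ℕ) (i : Fin d)
    (q : Fin d → ℚ) (hq : ∀ l, 0 ≤ q l) :
    ∀ a ∈ setP M v i, a ≠ Pi.single i 1 →
      dot (wp i q) (Pi.single i 1) < dot (wp i q) a := by
  intro a ha ha1
  obtain ⟨x, -, rfl⟩ := mem_image.1 ha
  have hx : x ≠ 0 := by
    rintro rfl
    exact ha1 (pp_zero M i)
  have h1 := minP_d1 hd
  have he := minP_eps i q hq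
  have hMi : (0 : ℚ) < M i := by exact_mod_cast hM i
  have ht := minP_tau_nonneg hd x hx
  rw [dot_single, dot_pp, sum_wp hd, dot_wp_nu_self hd]
  have : 0 ≤ (x : ℚ) * M i * (d + 1 + eps i q) := by
    apply mul_nonneg
    · positivity
    · linarith
  linarith

theorem minP_free {d : ℕ} (hd : 2 ≤ d) (v : ℕ) (i : Fin d) (q : Fin d → ℚ)
    (hq : ∀ l, 0 ≤ q l) (hq1 : ∀ l, q l ≤ 1) :
    ∀ x < v, x ≠ 0 → dot (wp i q) (pt0 d (3 * (v : ℤ) + 1) 0) <
      dot (wp i q) (pt0 d (3 * (v : ℤ) + 1) x) := by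
  intro x hx hx0
  have h1 := minP_d1 hd
  have he := minP_eps i q hq
  rw [dot_pt0 hd, dot_pt0 hd, sum_wp hd]
  have hw : -3 ≤ wp i q ⟨0, by omega⟩ := by
    by_cases h : (⟨0, by omega⟩ : Fin d) = i
    · rw [h, wp_self]
      have : 0 ≤ eps i q / ((d : ℚ) - 1) := div_nonneg he (by linarith)
      linarith
    · rw [wp_other i _ h, le_div_iff₀ (by linarith)]
      have := hq1 ⟨0, by omega⟩
      nlinarith
  generalize wp i q ⟨0, by omega⟩ = w0 at hw
  have hx1 : (1 : ℚ) ≤ x := by exact_mod_cast Nat.one_le_iff_ne_zero.2 hx0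
  have hx2 : (x : ℚ) ≤ v := by exact_mod_cast hx.le
  push_cast
  have h2 : -3 * (x : ℚ) ^ 2 ≤ (x : ℚ) ^ 2 * w0 := by nlinarith [sq_nonneg (x : ℚ)]
  have h3 : (x : ℚ) * x ≤ x * v := mul_le_mul_of_nonneg_left hx2 (by linarith)
  nlinarith

/-- the linear forms which single out a vertex -/
private theorem minP_form {d : ℕ} (hd : 2 ≤ d) (M : Fin d → ℤ) (hM : ∀ l, 0 < M l) (j : Fin d)
    (x : ℕ) : ∃ (w : Fin d → ℚ) (C : ℚ), ∀ x' : ℕ,
      dot w (pp M j x') = C + ((d : ℚ) - 1) * ((x' : ℚ) - x) ^ 2 := by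
  have h1 := minP_d1 hd
  have h0 : (d : ℚ) - 1 ≠ 0 := by linarith
  have hMj : (0 : ℚ) < M j := by exact_mod_cast hM j
  haveI : Nontrivial (Fin d) := Fin.nontrivial_iff_two_le.2 hd
  obtain ⟨l, hl⟩ := exists_ne j
  set a : ℚ := (-2 - (1 + 2 * (d - 1) * x - (d - 1)) / M j) / (d - 1) with ha
  set w : Fin d → ℚ := Pi.single j a + Pi.single l (-1 - a) with hw
  have hsum : ∑ k, w k = -1 := by
    simp [hw, Finset.sum_add_distrib, Finset.sum_pi_single']
  have hwj : w j = a := by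
    simp [hw, hl.symm]
  refine ⟨w, a - ((d : ℚ) - 1) * x ^ 2, fun x' => ?_⟩
  rw [minP_val w M j (1 + 2 * (d - 1) * x - (d - 1)) hsum (by
    rw [dot_nu, hsum, hwj, ha]
    field_simp
    ring) x', hwj]
  ring

theorem setP_vertices {d : ℕ} (hd : 2 ≤ d) (M : Fin d → ℤ) (hM : ∀ l, 0 < M l) (v : ℕ)
    (j : Fin d) :
    (setP M v j).card = v ∧
    ∀ a ∈ setP M v j, ∃ w : Fin d → ℚ, ∀ a' ∈ setP M v j, a' ≠ a → dot w a < dot w a' := by
  have h1 := minP_d1 hd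
  constructor
  · unfold setP
    rw [card_image_of_injective, card_range]
    intro x y hxy
    obtain ⟨w, C, hw⟩ := minP_form hd M hM j x
    have h2 := hw x
    have h3 := hw y
    have hxy' : pp M j x = pp M j y := hxy
    rw [hxy', h3] at h2
    have h4 : ((d : ℚ) - 1) * ((y : ℚ) - x) ^ 2 = 0 := by
      have : ((d : ℚ) - 1) * ((x : ℚ) - x) ^ 2 = 0 := by ring
      linarith
    rcases mul_eq_zero.1 h4 with h5 | h5
    · linarith
    · have h6 : (y : ℚ) - x = 0 := by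
        exact pow_eq_zero_iff (two_ne_zero) |>.1 h5
      have h7 : (y : ℚ) = x := by linarith
      exact_mod_cast h7.symm
  · intro a ha
    obtain ⟨x, -, rfl⟩ := mem_image.1 ha
    obtain ⟨w, C, hw⟩ := minP_form hd M hM j x
    refine ⟨w, fun a' ha' hne => ?_⟩
    obtain ⟨y, -, rfl⟩ := mem_image.1 ha'
    have hxy : (y : ℚ) - x ≠ 0 := by
      intro h
      apply hne
      have h7 : (y : ℚ) = x := by linarith
      have h8 : y = x := by exact_mod_cast h7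
      rw [h8]
    rw [hw, hw]
    have h9 : 0 < ((d : ℚ) - 1) * ((y : ℚ) - x) ^ 2 := by
      apply mul_pos (by linarith)
      positivity
    have h10 : ((d : ℚ) - 1) * ((x : ℚ) - x) ^ 2 = 0 := by ring
    linarith

theorem minP_neg {d : ℕ} (hd : 2 ≤ d) (M : Fin d → ℤ) (hM : ∀ l, 0 < M l) (v : ℕ) (j : Fin d) :
    ∀ a ∈ setP M v j, a ≠ Pi.single j 1 →
      dot (fun _ => (-1 : ℚ)) (Pi.single j 1) < dot (fun _ => (-1 : ℚ)) a := by
  intro a ha ha1
  obtain ⟨x, -, rfl⟩ := mem_image.1 ha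
  have hx : x ≠ 0 := by
    rintro rfl
    exact ha1 (pp_zero M j)
  have h1 := minP_d1 hd
  have hMj : (0 : ℚ) < M j := by exact_mod_cast hM j
  have ht := minP_tau_nonneg hd x hx
  have hs : ∑ _l : Fin d, (-1 : ℚ) = -d := by
    simp
  rw [dot_single, dot_pp, dot_nu, hs]
  have h2 : 0 ≤ (x : ℚ) * M j * (((d : ℚ) - 1) * -1 - 2 * -d) := by
    apply mul_nonneg
    · positivity
    · linarith
  have h3 : 0 < ((tau ((d : ℤ) - 1) x : ℤ) : ℚ) * d := by
    apply mul_pos ht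
    linarith
  linarith

end Pool.Agent.Lib.MP_4e7804_co
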