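import Mathlib
import Pool.Agent.Lib.MP_4e7804_co.Lo.Implicit
import Pool.Agent.Lib.MP_4e7804_co.Lo.Indep
import Pool.Agent.Lib.MP_4e7804_co.Lo.Hull
import Pool.Agent.Lib.MP_4e7804_co.Pg.MinP

/-! MP_4e7804_co, module Pg/ExistP (100 lines): existence of the implicit equation, and the levels.

PROOF of `exists_F_confQ`: as `exists_F_conf` in Lo/ExistF.lean, with `w = fun _ => -1` and
`minP_neg` (`Pi.single j 1 = pp M j 0 ∈ setP` because `1 ≤ v j.succ`).
PROOF of `levelsP_card`: as `levels_card` in Lo/Levels.lean: the level is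
`1 + eps i (qp M κ)/(d-1)` (`wp_self`), injective in `κ` on the piFinset (`hinj`; `κ i = 0 < K`,
`κ j < v j.succ - 1 < K`), positive because `eps ≥ 0`. -/

set_option autoImplicit false

open Finset

namespace Pool.Agent.Lib.MP_4e7804_co

theorem exists_F_confQ {d : ℕ} (hd : 2 ≤ d) (M : Fin d → ℤ) (hM : ∀ l, 0 < M l)
    (v : Fin (d + 1) → ℕ) (hv : ∀ m, 1 ≤ v m)
    (c : Fin (d + 1) → (Fin d → ℤ) → ℂ)
    (hc : ∀ j : Fin d, ∀ a ∈ setP M (v j.succ) j, c j.succ a ≠ 0) :
    ∃ F, IsImplicitEq (confQ M v) c F := by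
  have hfin : ∀ i, (latticePoints (confQ M v i)).Finite := by
    intro i
    refine Fin.cases ?_ (fun j => ?_) i
    · exact latticePoints_hull_finite (set0 d (3 * (v 0 : ℤ) + 1) (v 0))
    · exact latticePoints_hull_finite (setP M (v j.succ) j)
  have hmem : ∀ j : Fin d, (Pi.single j 1 : Fin d → ℤ) ∈ setP M (v j.succ) j := fun j => by
    rw [← pp_zero M j]
    exact Finset.mem_image_of_mem _ (Finset.mem_range.2 (hv j.succ))
  refine exists_implicit (confQ M v) hfin c fun G hG => ?_
  refine indep_of_min (confQ M v) hfin c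
    (Fin.cons 0 (fun j : Fin d => (Pi.single j 1 : Fin d → ℤ))) (fun _ => -1) Fin.succ ?_ ?_ ?_ ?_
    G hG
  · exact fun j => subset_latticePoints_hull (setP M (v j.succ) j) (hmem j)
  · exact fun j => hc j _ (hmem j)
  · exact fun j p hp hpa => dot_lt_of_unique (setP M (v j.succ) j) (fun _ => -1) (Pi.single j 1)
      (hmem j) (minP_neg hd M hM (v j.succ) j) p hp hpa
  · have h1 := (Pi.basisFun ℝ (Fin d)).linearIndependent
    have h2 : (fun j : Fin d => toReal ((Fin.cons 0 (fun j : Fin d => (Pi.single j 1 : Fin d → ℤ)) :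
        Fin (d + 1) → Fin d → ℤ) (Fin.succ j))) = fun j => (Pi.basisFun ℝ (Fin d)) j := by
      funext j l
      rw [Fin.cons_succ, Pi.basisFun_apply]
      unfold toReal
      by_cases h : l = j
      · subst h
        simp
      · simp [Pi.single_eq_of_ne h]
    rw [h2]
    exact h1

theorem levelsP_card {d : ℕ} (hd : 2 ≤ d) (M : Fin d → ℤ) (hM : ∀ l, 0 < M l)
    (v : Fin (d + 1) → ℕ) (K : ℕ) (hK : ∀ m, v m ≤ K) (hK1 : 1 ≤ K)
    (hinj : ∀ i : Fin d, ∀ κ κ' : Fin d → ℕ, (∀ l, κ l < K) → (∀ l, κ' l < K) → κ i = κ' i →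
        eps i (qp M κ) = eps i (qp M κ') → κ = κ') (i : Fin d) :
    (levelsP M v i).card = ∏ j ∈ univ.filter (· ≠ i), (v j.succ - 1) ∧
      ∀ r ∈ levelsP M v i, 0 < r := by
  have hd1 : (0 : ℚ) < (d : ℚ) - 1 := by
    have : (2 : ℚ) ≤ d := by exact_mod_cast hd
    linarith
  have hmemb : ∀ κ : Fin d → ℕ,
      κ ∈ Fintype.piFinset (fun j : Fin d => if j = i then ({0} : Finset ℕ)
        else range (v j.succ - 1)) → (∀ l, κ l < K) ∧ κ i = 0 := by
    intro κ hκ
    rw [Fintype.mem_piFinset] at hκ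
    have hi : κ i = 0 := by
      have h := hκ i
      simpa using h
    refine ⟨fun l => ?_, hi⟩
    by_cases hl : l = i
    · rw [hl, hi]; omega
    · have h := hκ l
      simp only [hl, if_false, mem_range] at h
      have := hK l.succ
      omega
  constructor
  · unfold levelsP
    rw [Finset.card_image_of_injOn, Fintype.card_piFinset]
    · rw [prod_filter]
      apply prod_congr rfl
      intro j _
      by_cases hj : j = i
      · simp [hj]
      · simp [hj]
    · intro κ hκ κ' hκ' h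
      obtain ⟨h1, h1i⟩ := hmemb κ (by simpa only [mem_coe] using hκ)
      obtain ⟨h2, h2i⟩ := hmemb κ' (by simpa only [mem_coe] using hκ')
      have h0 : ((wp i (qp M κ) i : ℚ) : ℝ) = ((wp i (qp M κ') i : ℚ) : ℝ) := h
      have h3 : wp i (qp M κ) i = wp i (qp M κ') i := by exact_mod_cast h0
      rw [wp_self, wp_self] at h3
      have h4 : eps i (qp M κ) / ((d : ℚ) - 1) = eps i (qp M κ') / ((d : ℚ) - 1) := by linarith
      rw [div_left_inj' hd1.ne'] at h4
      exact hinj i κ κ' h1 h2 (by rw [h1i, h2i]) h4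
  · intro r hr
    unfold levelsP at hr
    obtain ⟨κ, hκ, rfl⟩ := mem_image.mp hr
    have hq : ∀ l, 0 ≤ qp M κ l := by
      intro l
      unfold qp
      have : (0 : ℚ) < M l := by exact_mod_cast hM l
      apply div_nonneg _ this.le
      have h2 : (0 : ℚ) ≤ κ l := by positivity
      nlinarith
    have h5 : 0 ≤ eps i (qp M κ) := Finset.sum_nonneg fun l _ => hq l
    have h6 : 0 < wp i (qp M κ) i := by
      rw [wp_self]
      have := div_nonneg h5 hd1.le
      linarith
    exact_mod_cast h6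

end Pool.Agent.Lib.MP_4e7804_co
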