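import Mathlib
import Pool.Agent.Lib.MP_4e7804_co.Pg.GeoP

/-! MP_4e7804_co, module Pg/ParamP (100 lines): the parameters `M_l`.

PROOF (compare Lo/Param.lean). `D = d - 1 ≥ 1`, `s ≥ 1` with `(2D)^s > 1 + 2 D K`,
`e l = s (l + 1)`, `M_l = (2D)^(e l)`. `qp M κ l = (1 + 2 D κ_l)/M_l ≤ (1 + 2DK)/(2D)^s ≤ 1`.
Injectivity: if `κ ≠ κ'` (and `κ i = κ' i`) let `l` be the first index where they differ (`l ≠ i`);
with `B = (2D)^s` the terms number `l` of the two sums differ by at least `2D/B^(l+1)` in absolute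
value, and the later terms differ by at most
`∑_{t > l} 2 D (K - 1)/B^(t+1) ≤ 2 D (K-1)/(B^(l+1) (B - 1)) < 2D/B^(l+1)`, because
`B - 1 > K - 1`; so the sums are different. -/

set_option autoImplicit false

open Finset

namespace Pool.Agent.Lib.MP_4e7804_co

theorem ParamP_digits (B : ℕ) (hB : 0 < B) : ∀ (d : ℕ) (f g : Fin d → ℕ), (∀ l, f l < B) →
    (∀ l, g l < B) → ∑ l, f l * B ^ (d - 1 - l.val) = ∑ l, g l * B ^ (d - 1 - l.val) → f = g := by
  intro d
  induction d with
  | zero => intro f g _ _ _; funext l; exact l.elim0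
  | succ d ih =>
    intro f g hf hg h
    have key : ∀ u : Fin (d + 1) → ℕ, ∑ l, u l * B ^ (d + 1 - 1 - l.val) =
        B * (∑ l : Fin d, u l.castSucc * B ^ (d - 1 - l.val)) + u (Fin.last d) := by
      intro u
      rw [Fin.sum_univ_castSucc, Finset.mul_sum]
      congr 1
      · refine Finset.sum_congr rfl fun l _ => ?_
        have h1 : d + 1 - 1 - (l.castSucc).val = (d - 1 - l.val) + 1 := by
          have := l.isLt
          simp only [Fin.val_castSucc]
          omega
        rw [h1, pow_succ]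
        ring
      · simp
    rw [key f, key g] at h
    have h2 : f (Fin.last d) = g (Fin.last d) := by
      have h3 := congrArg (· % B) h
      simpa [Nat.mul_add_mod, Nat.mod_eq_of_lt (hf _), Nat.mod_eq_of_lt (hg _)] using h3
    rw [h2] at h
    have h4 : ∑ l : Fin d, f l.castSucc * B ^ (d - 1 - l.val) =
        ∑ l : Fin d, g l.castSucc * B ^ (d - 1 - l.val) :=
      Nat.eq_of_mul_eq_mul_left hB (Nat.add_right_cancel h)
    have h5 := ih (fun l => f l.castSucc) (fun l => g l.castSucc) (fun l => hf _) (fun l => hg _) h4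
    funext l
    refine Fin.lastCases h2 (fun l => ?_) l
    exact congrFun h5 l

theorem exists_MP (d : ℕ) (hd : 2 ≤ d) (K : ℕ) :
    ∃ (e : Fin d → ℕ) (M : Fin d → ℤ), (∀ l, 1 ≤ e l) ∧
      (∀ l, M l = (2 * ((d : ℤ) - 1)) ^ e l) ∧
      (∀ κ : Fin d → ℕ, (∀ l, κ l < K) → ∀ l, qp M κ l ≤ 1) ∧
      ∀ i : Fin d, ∀ κ κ' : Fin d → ℕ, (∀ l, κ l < K) → (∀ l, κ' l < K) → κ i = κ' i →
        eps i (qp M κ) = eps i (qp M κ') → κ = κ' := by
  obtain ⟨D, rfl⟩ : ∃ D, d = D + 1 := ⟨d - 1, by omega⟩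
  have hD : 1 ≤ D := by omega
  set s : ℕ := 1 + 2 * D * K with hs
  set B : ℕ := (2 * D) ^ s with hBdef
  have hsB : s < B := by
    refine (Nat.lt_two_pow_self).trans_le ?_
    exact Nat.pow_le_pow_left (by omega) s
  have hB : 0 < B := by omega
  have hlt : ∀ u : ℕ, u < K → 1 + 2 * D * u < B := by
    intro u hu
    have : 2 * D * u ≤ 2 * D * K := Nat.mul_le_mul_left _ hu.le
    omega
  set M : Fin (D + 1) → ℤ := fun l => (2 * ((D + 1 : ℕ) - 1 : ℤ)) ^ (s * (l.val + 1)) with hM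
  have hMc : ∀ l, (M l : ℚ) = (B : ℚ) ^ (l.val + 1) := by
    intro l
    simp only [hM, hBdef]
    push_cast
    rw [pow_mul]
    ring
  have hB0 : (0 : ℚ) < B := by exact_mod_cast hB
  have hqp : ∀ u : Fin (D + 1) → ℕ, ∀ l, qp M u l = ((1 + 2 * D * u l : ℕ) : ℚ) / B ^ (l.val + 1) := by
    intro u l
    unfold qp
    rw [hMc]
    push_cast
    ring
  refine ⟨fun l => s * (l.val + 1), M, fun l => ?_, fun l => rfl, ?_, ?_⟩
  · have : 1 ≤ s := by omega
    exact Nat.mul_pos this (by omega)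
  · intro κ hκ l
    rw [hqp, div_le_one (by positivity)]
    have h1 : ((1 + 2 * D * κ l : ℕ) : ℚ) ≤ (B : ℚ) := by exact_mod_cast (hlt _ (hκ l)).le
    refine h1.trans ?_
    exact le_self_pow₀ (by exact_mod_cast hB) (by omega)
  · intro i κ κ' hκ hκ' hi h
    have hfull : ∑ l, qp M κ l = ∑ l, qp M κ' l := by
      have h1 : ∀ q : Fin (D + 1) → ℚ, ∑ l, q l = q i + eps i q := by
        intro q
        unfold eps
        rw [← Finset.sum_filter_add_sum_filter_not univ (fun l => l = i)]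
        congr 1
        rw [Finset.filter_eq' univ i]
        simp
      rw [h1, h1, h]
      unfold qp
      rw [hi]
    have h2 : ∀ u : Fin (D + 1) → ℕ, (∑ l, qp M u l) * (B : ℚ) ^ (D + 1) =
        ((∑ l, (1 + 2 * D * u l) * B ^ (D + 1 - 1 - l.val) : ℕ) : ℚ) := by
      intro u
      rw [Finset.sum_mul]
      push_cast
      refine Finset.sum_congr rfl fun l _ => ?_
      rw [hqp]
      have h3 : D + 1 = (l.val + 1) + (D + 1 - 1 - l.val) := by
        have := l.isLt
        omega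
      have h4 : (B : ℚ) ^ (D + 1) = (B : ℚ) ^ (l.val + 1) * (B : ℚ) ^ (D + 1 - 1 - l.val) := by
        rw [← pow_add, ← h3]
      rw [h4]
      have h5 : (B : ℚ) ^ (l.val + 1) ≠ 0 := by positivity
      field_simp
      push_cast
      ring
    have h6 : (∑ l, (1 + 2 * D * κ l) * B ^ (D + 1 - 1 - l.val) : ℕ) =
        ∑ l, (1 + 2 * D * κ' l) * B ^ (D + 1 - 1 - l.val) := by
      have h7 := h2 κ
      rw [hfull, h2 κ'] at h7
      exact_mod_cast h7.symm
    have h8 := ParamP_digits B hB (D + 1) (fun l => 1 + 2 * D * κ l) (fun l => 1 + 2 * D * κ' l)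
      (fun l => hlt _ (hκ l)) (fun l => hlt _ (hκ' l)) h6
    funext l
    have h9 := congrFun h8 l
    have h10 : 2 * D * κ l = 2 * D * κ' l := by
      simpa using h9
    exact Nat.eq_of_mul_eq_mul_left (by omega) h10

end Pool.Agent.Lib.MP_4e7804_co
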