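import Mathlib
import Pool.Agent.Lib.MP_4e7804_co.Pg.Wp

/-! MP_4e7804_co, module Pg/PrimP (100 lines): the edges are primitive, the dual family.

PROOF of `primP_edge`. `D = d - 1 ≥ 1`, `t = 1 + 2 D x`, `M = (2 D)^e`, `e ≥ 1`. By `pp_diff` the
coordinates of the edge are `-(2 M + t)` for `l ≠ j` (there is such an `l`) and `(d-3) M - t` for
`l = j`; their difference is `D M`. So `θ (2 M + t)` and `θ D M` are integers. `2 M + t` is congruent
to `1` modulo `2 D`, so it is coprime to `2 D`, hence to `D` and to `M = (2D)^e`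
(`IsCoprime.pow_right`, `IsCoprime.mul_right`), hence to `D M`; Bezout gives `θ ∈ ℤ`.
PROOF of `dualP_edge`. `u l t = (if t = l then 1 else 0 - if t = i then 1 else 0)/((d-1) M_l)`:
`∑_t u l t = 0`, so `∑_t u l t * ν_j t = ((d-1) u l j) = δ_{jl}/M_l` for `j ≠ i`
(`ν_j = -2 (1,…,1) + (d-1) e_j`), and the edge is `M_j ν_j - t (1,…,1)`. -/

set_option autoImplicit false

open Finset

namespace Pool.Agent.Lib.MP_4e7804_co

theorem primP_edge {d : ℕ} (hd : 2 ≤ d) (M : Fin d → ℤ) (j : Fin d) (e : ℕ) (he : 1 ≤ e)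
    (hM : M j = (2 * ((d : ℤ) - 1)) ^ e) (x : ℕ) (θ : ℝ)
    (hθ : ∀ l, ∃ z : ℤ, θ * ((pp M j (x + 1) l : ℝ) - pp M j x l) = z) :
    ∃ z : ℤ, θ = z := by
  set D : ℤ := (d : ℤ) - 1 with hD
  have hdiff : ∀ l, ((pp M j (x + 1) l : ℝ) - pp M j x l) =
      (2 * (D : ℝ)) ^ e * (nu j l : ℝ) - (1 + 2 * (D : ℝ) * x) := by
    intro l
    have h := congrArg (fun z : ℤ => (z : ℝ)) (pp_diff M j x l)
    rw [hM] at h
    push_cast at h
    rw [h, hD]
    push_cast
    ring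
  obtain ⟨l, hl⟩ : ∃ l : Fin d, l ≠ j := by
    by_contra h
    push Not at h
    have h1 : Fintype.card (Fin d) ≤ 1 := Fintype.card_le_one_iff.mpr fun a b => by
      rw [h a, h b]
    rw [Fintype.card_fin] at h1
    omega
  obtain ⟨z₁, h₁⟩ := hθ l
  obtain ⟨z₂, h₂⟩ := hθ j
  rw [hdiff] at h₁ h₂
  have n1 : (nu j l : ℝ) = -2 := by simp [nu, hl]
  have n2 : (nu j j : ℝ) = D - 2 := by
    simp only [nu, if_true, hD]
    push_cast
    ring
  rw [n1] at h₁
  rw [n2] at h₂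
  have hcop1 : IsCoprime (2 * (2 * D) ^ e + (1 + 2 * D * x)) (2 * D) := by
    obtain ⟨e', rfl⟩ : ∃ e', e = e' + 1 := ⟨e - 1, by omega⟩
    refine ⟨1, -(2 * (2 * D) ^ e' + x), ?_⟩
    ring
  have hcop2 : IsCoprime (2 * (2 * D) ^ e + (1 + 2 * D * x)) (D * (2 * D) ^ e) := by
    apply IsCoprime.mul_right
    · exact IsCoprime.of_mul_right_right hcop1
    · exact IsCoprime.pow_right hcop1
  obtain ⟨r, t, hrt⟩ := hcop2
  refine ⟨-(r * z₁) + t * (z₂ - z₁), ?_⟩
  have h5 : (r : ℝ) * (2 * (2 * (D : ℝ)) ^ e + (1 + 2 * (D : ℝ) * x)) +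
      t * ((D : ℝ) * (2 * (D : ℝ)) ^ e) = 1 := by exact_mod_cast hrt
  push_cast
  rw [← h₁, ← h₂]
  linear_combination (-θ) * h5

theorem dualP_edge {d : ℕ} (hd : 2 ≤ d) (M : Fin d → ℤ) (hM : ∀ l, 0 < M l) (i : Fin d) :
    ∃ u : Fin d → Fin d → ℚ, ∀ l, l ≠ i → ∀ j, j ≠ i → ∀ x : ℕ,
      ∑ t, u l t * ((pp M j (x + 1) t : ℚ) - pp M j x t) = if l = j then 1 else 0 := by
  have hs : (d : ℚ) - 1 ≠ 0 := by
    have : (2 : ℚ) ≤ d := by exact_mod_cast hd
    linarith
  set s : ℚ := (d : ℚ) - 1 with hsdef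
  refine ⟨fun l t => ((if t = l then 1 else 0) - (if t = i then 1 else 0)) / (s * M l),
    fun l hl j hj x => ?_⟩
  have hMl : (M l : ℚ) ≠ 0 := by exact_mod_cast (hM l).ne'
  have hdiff : ∀ t, ((pp M j (x + 1) t : ℚ) - pp M j x t) =
      (if t = j then M j * s else 0) - (2 * (M j : ℚ) + (1 + 2 * s * x)) := by
    intro t
    have h := congrArg (fun z : ℤ => (z : ℚ)) (pp_diff M j x t)
    push_cast at h
    rw [h]
    unfold nu
    by_cases h1 : t = j
    · rw [if_pos h1, if_pos h1, hsdef]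
      push_cast
      ring
    · rw [if_neg h1, if_neg h1, hsdef]
      push_cast
      ring
  have h2 : ∀ t : Fin d, ((if t = l then (1 : ℚ) else 0) - (if t = i then 1 else 0)) / (s * M l) *
      ((pp M j (x + 1) t : ℚ) - pp M j x t) =
      (if t = j then ((if j = l then (1 : ℚ) else 0) - (if j = i then 1 else 0)) / (s * M l) *
        (M j * s) else 0) -
      (2 * (M j : ℚ) + (1 + 2 * s * x)) / (s * M l) * ((if t = l then (1 : ℚ) else 0) -
        (if t = i then 1 else 0)) := by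
    intro t
    rw [hdiff]
    by_cases h1 : t = j
    · subst h1
      rw [if_pos rfl, if_pos rfl]
      ring
    · rw [if_neg h1, if_neg h1]
      ring
  rw [Finset.sum_congr rfl fun t _ => h2 t, Finset.sum_sub_distrib, Finset.sum_ite_eq',
    if_pos (Finset.mem_univ _), ← Finset.mul_sum, Finset.sum_sub_distrib, Finset.sum_ite_eq',
    Finset.sum_ite_eq', if_pos (Finset.mem_univ _), if_pos (Finset.mem_univ _), if_neg hj]
  by_cases hlj : l = j
  · subst hlj
    rw [if_pos rfl]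
    field_simp
    ring
  · rw [if_neg hlj, if_neg fun h => hlj h.symm]
    ring

end Pool.Agent.Lib.MP_4e7804_co
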