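import Mathlib
import Pool.Agent.Lib.MP_4e7804_co.Lo.Sheet
import Pool.Agent.Lib.MP_4e7804_co.Lo.Hull
import Pool.Agent.Lib.MP_4e7804_co.Pg.MinP
import Pool.Agent.Lib.MP_4e7804_co.Pg.PrimP

/-! MP_4e7804_co, module Pg/SheetP (130 lines): the sheets of the explicit polytopes.

PROOF: word by word the proof of `sheet_conf` in Lo/SheetConf.lean (copy it), with
`w = wp i (qp M κ)`, `J = (univ.filter (· ≠ i)).map Fin.succ`,
`a = Fin.cons (pt0 d (3 v_0 + 1) 0) (fun j => if j = i then Pi.single i 1 else pp M j (κ j))`,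
`b = ... pp M j (κ j + 1)`; `minP_edge`, `minP_unit`, `minP_free`, `primP_edge`, `dualP_edge` instead
of `minset_edge`, `minset_unit`, `hA`, `prim_edge`, `dual_edge`; `h 0 = 1` by `dot_pt0`, `sum_wp`;
`h j.succ < 0 < y j.succ` by the last part of `minP_edge`. (`Pi.single i 1 = pp M i 0 ∈ setP`.) -/

set_option autoImplicit false

open Finset

namespace Pool.Agent.Lib.MP_4e7804_co

theorem sheet_confQ {d : ℕ} (hd : 2 ≤ d) (e : Fin d → ℕ) (he : ∀ l, 1 ≤ e l) (M : Fin d → ℤ)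
    (hM : ∀ l, M l = (2 * ((d : ℤ) - 1)) ^ e l) (v : Fin (d + 1) → ℕ) (hv : ∀ m, 1 ≤ v m)
    (i : Fin d) (κ : Fin d → ℕ) (hκ : ∀ j, j ≠ i → κ j + 1 < v j.succ)
    (hq1 : ∀ l, qp M κ l ≤ 1)
    (c : Fin (d + 1) → (Fin d → ℤ) → ℂ)
    (hc0 : ∀ a ∈ set0 d (3 * (v 0 : ℤ) + 1) (v 0), c 0 a ≠ 0)
    (hc : ∀ j : Fin d, ∀ a ∈ setP M (v j.succ) j, c j.succ a ≠ 0)
    (F : MvPolynomial (Fin (d + 1)) ℂ)
    (hF : ∀ t, MvPolynomial.eval (evalAt (confQ M v) c t) F = 0)
    (y : Fin (d + 1) → ℝ) (hy0 : y 0 = 1) (hyi : y i.succ = ((wp i (qp M κ) i : ℚ) : ℝ))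
    (hy : ∀ j : Fin d, 0 < y j.succ) (α : Fin (d + 1) →₀ ℕ) (hα : α ∈ F.support) :
    ∃ β ∈ F.support, β ≠ α ∧ ∑ m, (β m : ℝ) * y m ≤ ∑ m, (α m : ℝ) * y m := by
  have hdz : (2 : ℤ) ≤ d := by exact_mod_cast hd
  have hMpos : ∀ l, 0 < M l := fun l => by
    rw [hM l]
    apply pow_pos
    linarith
  have hqk : ∀ l, 0 ≤ qp M κ l := by
    intro l
    have h0 : (0 : ℚ) < M l := by exact_mod_cast hMpos l
    have h1 : (2 : ℚ) ≤ d := by exact_mod_cast hd
    unfold qp
    apply div_nonneg _ h0.le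
    have h2 : (0 : ℚ) ≤ κ l := by positivity
    nlinarith
  have hedge := fun (j : Fin d) (hji : j ≠ i) =>
    minP_edge hd M hMpos (v j.succ) i κ j hji (hκ j hji)
  obtain ⟨u, hu⟩ := dualP_edge hd M hMpos i
  set w : Fin d → ℚ := wp i (qp M κ) with hw
  set a : Fin (d + 1) → Fin d → ℤ := Fin.cons (pt0 d (3 * (v 0 : ℤ) + 1) 0)
    (fun j => if j = i then Pi.single i 1 else pp M j (κ j)) with ha
  set b : Fin (d + 1) → Fin d → ℤ := Fin.cons (pt0 d (3 * (v 0 : ℤ) + 1) 0)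
    (fun j => if j = i then Pi.single i 1 else pp M j (κ j + 1)) with hb
  set J : Finset (Fin (d + 1)) := (univ.filter (· ≠ i)).map (Fin.succEmb d) with hJ
  have a0 : a 0 = pt0 d (3 * (v 0 : ℤ) + 1) 0 := by simp [ha]
  have ai : a i.succ = Pi.single i 1 := by simp [ha]
  have aj : ∀ j, j ≠ i → a j.succ = pp M j (κ j) := fun j hj => by simp [ha, hj]
  have bj : ∀ j, j ≠ i → b j.succ = pp M j (κ j + 1) := fun j hj => by simp [hb, hj]
  have hP0 : confQ M v 0 =
      convexHull ℝ (toReal '' (set0 d (3 * (v 0 : ℤ) + 1) (v 0) : Set (Fin d → ℤ))) := by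
    simp [confQ]
  have hPj : ∀ j : Fin d, confQ M v j.succ =
      convexHull ℝ (toReal '' (setP M (v j.succ) j : Set (Fin d → ℤ))) := fun j => by simp [confQ]
  have hmem0 : pt0 d (3 * (v 0 : ℤ) + 1) 0 ∈ set0 d (3 * (v 0 : ℤ) + 1) (v 0) :=
    Finset.mem_image_of_mem _ (Finset.mem_range.2 (hv 0))
  have hmemi : (Pi.single i 1 : Fin d → ℤ) ∈ setP M (v i.succ) i := by
    rw [← pp_zero M i]
    exact Finset.mem_image_of_mem _ (Finset.mem_range.2 (hv i.succ))
  have memJ : ∀ m, m ∈ J → ∃ j, j ≠ i ∧ m = j.succ := by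
    intro m hm
    rw [hJ, Finset.mem_map] at hm
    obtain ⟨j, hj, rfl⟩ := hm
    exact ⟨j, (Finset.mem_filter.1 hj).2, rfl⟩
  have sJ : ∀ j : Fin d, j ≠ i → j.succ ∈ J := by
    intro j hj
    rw [hJ, Finset.mem_map]
    exact ⟨j, Finset.mem_filter.2 ⟨Finset.mem_univ _, hj⟩, rfl⟩
  refine sheet_tie (confQ M v) ?_ c F hF w (fun m => dot w (a m)) J a b ?_ (fun _ => rfl)
    ?_ ?_ ?_ ?_ ?_ (Fin.cons 0 u) ?_ y ?_ ?_ α hα
  · intro m
    refine Fin.cases ?_ (fun j => ?_) m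
    · rw [hP0]
      exact latticePoints_hull_finite _
    · rw [hPj]
      exact latticePoints_hull_finite _
  · intro m
    refine Fin.cases ?_ (fun j => ?_) m
    · rw [hP0, a0]
      exact subset_latticePoints_hull _ hmem0
    · rw [hPj]
      by_cases hji : j = i
      · subst hji
        rw [ai]
        exact subset_latticePoints_hull _ hmemi
      · rw [aj j hji]
        exact subset_latticePoints_hull _ (hedge j hji).1
  · intro m
    refine Fin.cases ?_ (fun j => ?_) m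
    · rw [a0]
      exact hc0 _ hmem0
    · by_cases hji : j = i
      · subst hji
        rw [ai]
        exact hc j _ hmemi
      · rw [aj j hji]
        exact hc j _ (hedge j hji).1
  · intro m hm
    obtain ⟨j, hji, rfl⟩ := memJ m hm
    rw [hPj, bj j hji]
    exact subset_latticePoints_hull _ (hedge j hji).2.1
  · intro m hm
    obtain ⟨j, hji, rfl⟩ := memJ m hm
    show dot w (b j.succ) = dot w (a j.succ)
    rw [bj j hji, aj j hji]
    exact (hedge j hji).2.2.1.symm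
  · intro m hm
    obtain ⟨j, hji, rfl⟩ := memJ m hm
    rw [bj j hji]
    exact hc j _ (hedge j hji).2.1
  · intro m
    refine Fin.cases ?_ (fun j => ?_) m
    · intro p hp hpa _
      show dot w (a 0) < dot w p
      rw [hP0] at hp
      rw [a0] at hpa ⊢
      refine dot_lt_of_unique (set0 d (3 * (v 0 : ℤ) + 1) (v 0)) w _ hmem0 ?_ p hp hpa
      intro a' ha' hne
      obtain ⟨x, hx, rfl⟩ := Finset.mem_image.1 ha'
      refine minP_free hd (v 0) i (qp M κ) hqk hq1 x (Finset.mem_range.1 hx) ?_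
      rintro rfl
      exact hne rfl
    · intro p hp hpa hpb
      show dot w (a j.succ) < dot w p
      rw [hPj] at hp
      by_cases hji : j = i
      · subst hji
        rw [ai] at hpa ⊢
        exact dot_lt_of_unique (setP M (v j.succ) j) w _ hmemi
          (minP_unit hd M hMpos (v j.succ) j (qp M κ) hqk) p hp hpa
      · rw [aj j hji] at hpa ⊢
        have hpb' := hpb (sJ j hji)
        rw [bj j hji] at hpb'
        obtain ⟨e1, e2, e3, e4, -⟩ := hedge j hji
        exact dot_lt_of_edge (setP M (v j.succ) j) w _ _ e1 e2 e3 e4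
          (fun θ hθ => primP_edge hd M j (e j) (he j) (hM j) (κ j) θ hθ) p hp hpa hpb'
  · intro l hl m hm
    obtain ⟨l', hl', rfl⟩ := memJ l hl
    obtain ⟨j, hji, rfl⟩ := memJ m hm
    rw [bj j hji, aj j hji]
    simp only [Fin.cons_succ, Fin.succ_inj]
    exact hu l' hl' j hji (κ j)
  · intro m hm
    obtain ⟨j, hji, rfl⟩ := memJ m hm
    show ((dot w (a j.succ) : ℚ) : ℝ) < y j.succ
    rw [aj j hji]
    have hlt : dot w (pp M j (κ j)) < 0 := (hedge j hji).2.2.2.2
    have hlt' : ((dot w (pp M j (κ j)) : ℚ) : ℝ) < 0 := by exact_mod_cast hlt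
    exact hlt'.trans (hy j)
  · intro m
    refine Fin.cases ?_ (fun j => ?_) m
    · intro _
      show y 0 = ((dot w (a 0) : ℚ) : ℝ)
      rw [a0, dot_pt0 hd, hw, sum_wp hd, hy0]
      norm_num
    · intro hj
      show y j.succ = ((dot w (a j.succ) : ℚ) : ℝ)
      by_cases hji : j = i
      · subst hji
        rw [ai, dot_single, hyi]
      · exact absurd (sJ j hji) hj

end Pool.Agent.Lib.MP_4e7804_co
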