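import Mathlib
import Pool.Agent.Lib.MP_4e7804_co.Pg.SheetP
import Pool.Agent.Lib.MP_4e7804_co.Pg.ExistP
import Pool.Agent.Lib.MP_4e7804_co.Pg.ParamP
import Pool.Agent.Lib.MP_4e7804_co.Lo.CardA
import Pool.Agent.Lib.MP_4e7804_co.Lo.NumV
import Pool.Agent.Lib.MP_4e7804_co.Lo.Boxes
import Pool.Agent.Lib.MP_4e7804_co.Lo.Generic

/-! MP_4e7804_co, module Pg/ConfigP (130 lines): assembly of the lower bound with special index `0`.

PROOF: as `lower_config` in Lo/Config.lean, simpler. `K = ∑ v m` (so `v m ≤ K`, `1 ≤ K`), `e, M` from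
`exists_MP`; `P = confQ M v`; vertex numbers from `numVertices_hull` with `setP_vertices`,
`set0_vertices` (`A = 3 v_0 + 1 > 0`); `F` exists by `exists_F_confQ`; the inequality is `boxes_le`
with `R = levelsP M v`, `levelsP_card`, `sheet_confQ`. -/

set_option autoImplicit false

open Finset

namespace Pool.Agent.Lib.MP_4e7804_co

open scoped Classical in
private theorem configP_newton {n : ℕ} (F : MvPolynomial (Fin n) ℂ) :
    newton F = convexHull ℝ
      ((F.support.image fun (a : Fin n →₀ ℕ) (i : Fin n) => (a i : ℝ) : Finset (Fin n → ℝ)) :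
        Set (Fin n → ℝ)) := by
  rw [newton, Finset.coe_image]

theorem lower_configP {d : ℕ} (hd : 2 ≤ d) (v : Fin (d + 1) → ℕ) (hv : ∀ m, 1 ≤ v m) :
    ∃ P : Fin (d + 1) → Set (Fin d → ℝ), (∀ i, IsLatticePolytope (P i)) ∧
      (∀ i, numVertices (P i) = v i) ∧
      ∀ c : Fin (d + 1) → (Fin d → ℤ) → ℂ,
        (∀ i p, toReal p ∈ (P i).extremePoints ℝ → c i p ≠ 0) →
        (∃ F, IsImplicitEq P c F) ∧ ∀ F, IsImplicitEq P c F →
          ∏ i : Fin d, (∏ j ∈ univ.filter (· ≠ i), (v j.succ - 1) + 1)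
            ≤ numVertices (newton F) := by
  classical
  set K : ℕ := ∑ m, v m with hKdef
  have hKle : ∀ m, v m ≤ K := fun m =>
    Finset.single_le_sum (f := v) (fun _ _ => Nat.zero_le _) (Finset.mem_univ m)
  have hK1 : 1 ≤ K := (hv 0).trans (hKle 0)
  obtain ⟨e, M, he, hMe, hq1, hinj⟩ := exists_MP d hd K
  have hM : ∀ l, 0 < M l := fun l => by
    rw [hMe l]
    have : (2 : ℤ) ≤ d := by exact_mod_cast hd
    have : 0 < 2 * ((d : ℤ) - 1) := by omega
    positivity
  have hA0 : 0 < 3 * (v 0 : ℤ) + 1 := by positivity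
  have hset0 := set0_vertices hd (3 * (v 0 : ℤ) + 1) hA0 (v 0)
  have hsetP := fun j : Fin d => setP_vertices hd M hM (v j.succ) j
  refine ⟨confQ M v, ?_, ?_, ?_⟩
  · refine Fin.cases ?_ ?_
    · refine ⟨set0 d (3 * (v 0 : ℤ) + 1) (v 0), ?_, rfl⟩
      have := hv 0
      exact (Finset.nonempty_range_iff.2 (by omega)).image _
    · intro j
      refine ⟨setP M (v j.succ) j, ?_, rfl⟩
      have := hv j.succ
      exact (Finset.nonempty_range_iff.2 (by omega)).image _
  · refine Fin.cases ?_ ?_
    · exact (numVertices_hull _ hset0.2).trans hset0.1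
    · intro j
      exact (numVertices_hull _ (hsetP j).2).trans (hsetP j).1
  · intro c hc
    have hc0 : ∀ a ∈ set0 d (3 * (v 0 : ℤ) + 1) (v 0), c 0 a ≠ 0 := fun a ha =>
      hc 0 a (toReal_mem_extremePoints (set0 d (3 * (v 0 : ℤ) + 1) (v 0)) a ha (hset0.2 a ha))
    have hcA : ∀ j : Fin d, ∀ a ∈ setP M (v j.succ) j, c j.succ a ≠ 0 := fun j a ha =>
      hc j.succ a (toReal_mem_extremePoints (setP M (v j.succ) j) a ha ((hsetP j).2 a ha))
    refine ⟨exists_F_confQ hd M hM v hv c hcA, ?_⟩
    intro F hF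
    have hlev := fun i => levelsP_card hd M hM v K hKle hK1 hinj i
    rw [configP_newton F]
    have hne : F.support.Nonempty := by
      rw [Finset.nonempty_iff_ne_empty]
      intro h0
      exact hF.1.ne_zero (MvPolynomial.support_eq_empty.1 h0)
    have hbox := boxes_le
      (F.support.image fun (a : Fin (d + 1) →₀ ℕ) (i : Fin (d + 1)) => (a i : ℝ))
      (hne.image _) (levelsP M v) (fun i => (hlev i).2) ?_
    · refine le_trans (le_of_eq ?_) hbox
      refine Finset.prod_congr rfl fun i _ => ?_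
      rw [(hlev i).1]
    · rintro y hy0 hy ⟨i, hyi⟩ α hα
      obtain ⟨a, ha, rfl⟩ := Finset.mem_image.1 hα
      obtain ⟨κ, hκ, hκy⟩ := Finset.mem_image.1 hyi
      rw [Fintype.mem_piFinset] at hκ
      have hκ1 : ∀ j, j ≠ i → κ j + 1 < v j.succ := by
        intro j hji
        have := hκ j
        rw [if_neg hji, Finset.mem_range] at this
        omega
      have hκK : ∀ l, κ l < K := by
        intro l
        by_cases hl : l = i
        · have := hκ l
          rw [if_pos hl, Finset.mem_singleton] at this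
          omega
        · have := hκ1 l hl
          have := hKle l.succ
          omega
      obtain ⟨β, hβ, hβa, hle⟩ := sheet_confQ hd e he M hMe v hv i κ hκ1 (hq1 κ hκK) c hc0 hcA F
        (fun t => hF.eval_eq_zero t) y hy0 hκy.symm hy a ha
      refine ⟨fun m => (β m : ℝ), Finset.mem_image_of_mem _ hβ, ?_, ?_⟩
      · intro h
        apply hβa
        ext m
        have := congrFun h m
        exact_mod_cast this
      · simpa [dotProduct] using hle

end Pool.Agent.Lib.MP_4e7804_co
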