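import Mathlib
import Pool.Agent.Lib.MP_4e7804_co.Pg.ConfigP

/-! MP_4e7804_co, module Pg/PermP (150 lines): permutation of the polytopes; the lower bound with
an arbitrary special index.

PROOF of `implicit_perm`. `evalAt (P ∘ σ) (c ∘ σ) t = evalAt P c t ∘ σ` (by definition). Let
`ρ = MvPolynomial.rename σ.symm` (an algebra automorphism, inverse `rename σ`), so
`eval (x ∘ σ) (ρ G) = eval x G` (`MvPolynomial.eval_rename`). So `G` vanishes on the range of
`evalAt P c` iff `ρ G` vanishes on the range of `evalAt (P ∘ σ) (c ∘ σ)`; the zero locus equality is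
transported by the homeomorphism `x ↦ x ∘ σ` of `ℂ^n`; `ρ F` is irreducible
(`MulEquiv.irreducible_iff`).
PROOF of `numVertices_perm`. The linear automorphism `x ↦ x ∘ σ` of `ℝ^n` maps `newton F` to
`newton (ρ F)` (`MvPolynomial.support_rename_equiv`/`coeff_rename...`) and extreme points to extreme
points, so the numbers are equal.
PROOF of `lower_bound_special`. Apply `lower_configP` to `v ∘ σ` with `σ = Equiv.swap 0 m`, and
transport the configuration by `σ`. The product `∏_{i : Fin d} (∏_{j ≠ i} ((v ∘ σ) j.succ - 1) + 1)`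
is the product over all `i ≠ m` (`σ` maps `{j | j ≠ 0}` onto `{j | j ≠ m}`). -/

set_option autoImplicit false

open Finset

namespace Pool.Agent.Lib.MP_4e7804_co

theorem PermP_evalAt {n d : ℕ} (P : Fin n → Set (Fin d → ℝ)) (c : Fin n → (Fin d → ℤ) → ℂ)
    (σ : Equiv.Perm (Fin n)) :
    Set.range (evalAt (P ∘ σ) (c ∘ σ)) = (fun x : Fin n → ℂ => x ∘ σ) '' Set.range (evalAt P c) := by
  rw [← Set.range_comp]
  rfl

theorem PermP_aeval {n : ℕ} (x : Fin n → ℂ) (G : MvPolynomial (Fin n) ℂ)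
    (σ : Equiv.Perm (Fin n)) :
    MvPolynomial.aeval (x ∘ σ) (MvPolynomial.rename σ.symm G) = MvPolynomial.aeval x G := by
  rw [MvPolynomial.aeval_rename]
  congr 2
  funext i
  simp

theorem PermP_aeval' {n : ℕ} (x : Fin n → ℂ) (G : MvPolynomial (Fin n) ℂ)
    (σ : Equiv.Perm (Fin n)) :
    MvPolynomial.aeval x (MvPolynomial.rename σ G) = MvPolynomial.aeval (x ∘ σ) G := by
  rw [MvPolynomial.aeval_rename]

theorem PermP_zl {n : ℕ} (S : Set (Fin n → ℂ)) (σ : Equiv.Perm (Fin n)) (x : Fin n → ℂ) :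
    x ∈ MvPolynomial.zeroLocus ℂ (MvPolynomial.vanishingIdeal ℂ S) ↔
      x ∘ σ ∈ MvPolynomial.zeroLocus ℂ
        (MvPolynomial.vanishingIdeal ℂ ((fun x : Fin n → ℂ => x ∘ σ) '' S)) := by
  simp only [MvPolynomial.mem_zeroLocus_iff, MvPolynomial.mem_vanishingIdeal_iff]
  constructor
  · intro h G hG
    rw [← PermP_aeval']
    refine h _ fun s hs => ?_
    rw [PermP_aeval']
    exact hG _ ⟨s, hs, rfl⟩
  · intro h G hG
    rw [← PermP_aeval x G σ]
    refine h _ ?_
    rintro _ ⟨s, hs, rfl⟩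
    rw [PermP_aeval]
    exact hG s hs

theorem PermP_zl' {n : ℕ} (F : MvPolynomial (Fin n) ℂ) (σ : Equiv.Perm (Fin n))
    (x : Fin n → ℂ) :
    x ∈ MvPolynomial.zeroLocus ℂ (Ideal.span {F}) ↔
      x ∘ σ ∈ MvPolynomial.zeroLocus ℂ (Ideal.span {MvPolynomial.rename σ.symm F}) := by
  rw [MvPolynomial.zeroLocus_span, MvPolynomial.zeroLocus_span]
  simp only [Set.mem_singleton_iff, forall_eq, Set.mem_ofPred_eq]
  rw [PermP_aeval]

theorem implicit_perm {n d : ℕ} (P : Fin n → Set (Fin d → ℝ)) (c : Fin n → (Fin d → ℤ) → ℂ)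
    (F : MvPolynomial (Fin n) ℂ) (σ : Equiv.Perm (Fin n)) :
    IsImplicitEq P c F ↔
      IsImplicitEq (P ∘ σ) (c ∘ σ) (MvPolynomial.rename σ.symm F) := by
  have hsurj : Function.Surjective (fun x : Fin n → ℂ => x ∘ σ) := fun y =>
    ⟨y ∘ σ.symm, by funext i; simp⟩
  unfold IsImplicitEq
  have h1 : Irreducible F ↔ Irreducible (MvPolynomial.rename σ.symm F) :=
    (MulEquiv.irreducible_iff (MvPolynomial.renameEquiv ℂ σ.symm)).symm
  have h2 : (MvPolynomial.zeroLocus ℂ (MvPolynomial.vanishingIdeal ℂ (Set.range (evalAt P c))) =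
      MvPolynomial.zeroLocus ℂ (Ideal.span {F})) ↔
      (MvPolynomial.zeroLocus ℂ
        (MvPolynomial.vanishingIdeal ℂ (Set.range (evalAt (P ∘ σ) (c ∘ σ)))) =
      MvPolynomial.zeroLocus ℂ (Ideal.span {MvPolynomial.rename σ.symm F})) := by
    rw [PermP_evalAt]
    constructor
    · intro h
      refine Set.ext fun y => ?_
      obtain ⟨x, rfl⟩ := hsurj y
      show x ∘ σ ∈ _ ↔ x ∘ σ ∈ _
      rw [← PermP_zl, ← PermP_zl', h]
    · intro h
      refine Set.ext fun x => ?_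
      rw [PermP_zl _ σ, PermP_zl' _ σ, h]
  rw [h1, h2]

theorem numVertices_perm {n : ℕ} (F : MvPolynomial (Fin n) ℂ) (σ : Equiv.Perm (Fin n)) :
    numVertices (newton (MvPolynomial.rename σ.symm F)) = numVertices (newton F) := by
  classical
  set e : (Fin n → ℝ) ≃ₗ[ℝ] (Fin n → ℝ) := LinearEquiv.funCongrLeft ℝ ℝ σ with he
  have h1 : newton (MvPolynomial.rename σ.symm F) = e '' newton F := by
    unfold newton
    have h2 : (e : (Fin n → ℝ) → (Fin n → ℝ)) = (e : (Fin n → ℝ) →ₗ[ℝ] (Fin n → ℝ)) := rfl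
    rw [h2, LinearMap.image_convexHull]
    congr 1
    rw [MvPolynomial.support_rename_of_injective σ.symm.injective, Finset.coe_image,
      Set.image_image, Set.image_image]
    refine Set.image_congr fun a _ => ?_
    funext i
    show ((Finsupp.mapDomain σ.symm a i : ℕ) : ℝ) = ((a (σ i) : ℕ) : ℝ)
    rw [Finsupp.mapDomain_equiv_apply, Equiv.symm_symm]
  unfold numVertices
  rw [h1, ← image_extremePoints, Set.ncard_image_of_injective _ e.injective]

theorem PermP_prod {d : ℕ} (m : Fin (d + 1)) (h : Fin (d + 1) → ℕ) (p : Fin (d + 1) → Prop)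
    [DecidablePred p] :
    ∏ j ∈ univ.filter (fun j : Fin d => p (Equiv.swap 0 m j.succ)), h (Equiv.swap 0 m j.succ) =
      ∏ b ∈ univ.filter (fun b => b ≠ m ∧ p b), h b := by
  refine Finset.prod_bij (fun j _ => Equiv.swap 0 m j.succ) ?_ ?_ ?_ (fun _ _ => rfl)
  · intro j hj
    rw [Finset.mem_filter] at hj ⊢
    refine ⟨Finset.mem_univ _, fun h1 => ?_, hj.2⟩
    have h2 : Equiv.swap 0 m j.succ = Equiv.swap 0 m 0 := by rw [h1, Equiv.swap_apply_left]
    exact Fin.succ_ne_zero j ((Equiv.swap 0 m).injective h2)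
  · intro j _ j' _ h1
    exact Fin.succ_injective _ ((Equiv.swap 0 m).injective h1)
  · intro b hb
    rw [Finset.mem_filter] at hb
    have h1 : Equiv.swap 0 m b ≠ 0 := by
      intro h2
      apply hb.2.1
      have h3 : Equiv.swap 0 m (Equiv.swap 0 m b) = Equiv.swap 0 m 0 := by rw [h2]
      rwa [Equiv.swap_apply_self, Equiv.swap_apply_left] at h3
    obtain ⟨j, hj⟩ := Fin.exists_succ_eq_of_ne_zero h1
    have h4 : Equiv.swap 0 m j.succ = b := by rw [hj, Equiv.swap_apply_self]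
    refine ⟨j, ?_, h4⟩
    rw [Finset.mem_filter, h4]
    exact ⟨Finset.mem_univ _, hb.2.2⟩

theorem lower_bound_special {d : ℕ} (hd : 2 ≤ d) (v : Fin (d + 1) → ℕ) (hv : ∀ m, 1 ≤ v m)
    (m : Fin (d + 1)) :
    ∃ P : Fin (d + 1) → Set (Fin d → ℝ), (∀ i, IsLatticePolytope (P i)) ∧
      (∀ i, numVertices (P i) = v i) ∧
      ∀ c : Fin (d + 1) → (Fin d → ℤ) → ℂ,
        (∀ i p, toReal p ∈ (P i).extremePoints ℝ → c i p ≠ 0) →
        (∃ F, IsImplicitEq P c F) ∧ ∀ F, IsImplicitEq P c F →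
          ∏ i ∈ univ.filter (· ≠ m), (∏ j ∈ univ.filter (fun j => j ≠ m ∧ j ≠ i), (v j - 1) + 1)
            ≤ numVertices (newton F) := by
  classical
  set σ : Equiv.Perm (Fin (d + 1)) := Equiv.swap 0 m with hσ
  have hσσ : ∀ i, σ (σ i) = i := fun i => Equiv.swap_apply_self 0 m i
  obtain ⟨P, hP, hN, hB⟩ := lower_configP hd (v ∘ σ) (fun i => hv _)
  have hPσ : (P ∘ σ) ∘ σ = P := by funext i; simp [hσσ]
  have hprod : ∏ i : Fin d, (∏ j ∈ univ.filter (· ≠ i), ((v ∘ σ) j.succ - 1) + 1) =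
      ∏ i ∈ univ.filter (· ≠ m), (∏ j ∈ univ.filter (fun j => j ≠ m ∧ j ≠ i), (v j - 1) + 1) := by
    have h1 := PermP_prod m (fun i => ∏ j ∈ univ.filter (fun j => j ≠ m ∧ j ≠ i), (v j - 1) + 1)
      (fun _ => True)
    simp only [and_true, Finset.filter_true] at h1
    rw [← h1]
    refine Finset.prod_congr rfl fun i _ => ?_
    congr 1
    have h2 := PermP_prod m (fun j => v j - 1) (fun j => j ≠ σ i.succ)
    rw [← h2]
    refine Finset.prod_congr ?_ fun j _ => rfl
    ext j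
    simp only [Finset.mem_filter, Finset.mem_univ, true_and]
    rw [not_iff_not]
    constructor
    · rintro rfl
      rfl
    · intro h3
      exact Fin.succ_injective _ (σ.injective h3)
  refine ⟨P ∘ σ, fun i => hP _, fun i => ?_, fun c hc => ?_⟩
  · show numVertices (P (σ i)) = v i
    rw [hN]
    show v (σ (σ i)) = v i
    rw [hσσ]
  · obtain ⟨⟨F, hF⟩, h2⟩ := hB (c ∘ σ) (fun i p hp => hc (σ i) p (by
      show toReal p ∈ (P (σ (σ i))).extremePoints ℝ
      rw [hσσ]
      exact hp))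
    have hcσ : (c ∘ σ) ∘ σ = c := by funext i; simp [hσσ]
    refine ⟨⟨MvPolynomial.rename σ.symm F, ?_⟩, fun F' hF' => ?_⟩
    · have h3 := (implicit_perm P (c ∘ σ) F σ).1 hF
      rwa [hcσ] at h3
    · rw [← hprod, ← numVertices_perm F' σ]
      have h3 := (implicit_perm (P ∘ σ) c F' σ).1 hF'
      rw [hPσ] at h3
      exact h2 _ h3

/-- With generic coefficients. PROOF. `exists_generic`, `IsGeneric.ne_zero` (Lo/Generic.lean; the
latticePoints are finite by `latticePoints_hull_finite`; extreme points belong to the polytope). -/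
theorem lower_special {d : ℕ} (hd : 2 ≤ d) (v : Fin (d + 1) → ℕ) (hv : ∀ m, 1 ≤ v m)
    (m : Fin (d + 1)) :
    ∃ N, IsVertexNumber v N ∧
      ∏ i ∈ univ.filter (· ≠ m), (∏ j ∈ univ.filter (fun j => j ≠ m ∧ j ≠ i), (v j - 1) + 1)
        ≤ N := by
  obtain ⟨P, hP, hN, hB⟩ := lower_bound_special hd v hv m
  obtain ⟨c, hc⟩ := exists_generic P (fun i => by
    obtain ⟨A, -, hA⟩ := hP i
    rw [hA]
    exact latticePoints_hull_finite A)
  obtain ⟨⟨F, hF⟩, h2⟩ := hB c (fun i p hp => by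
    have h1 : toReal p ∈ P i := extremePoints_subset hp
    exact hc.ne_zero i p h1)
  exact ⟨_, ⟨P, c, F, hP, hN, hc, hF, rfl⟩, h2 F hF⟩

end Pool.Agent.Lib.MP_4e7804_co
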